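import Mathlib

/-!
# Stack sort and revstack sort: definitions and first properties (helper58, MP_78620a_co)
-/

set_option autoImplicit false

namespace Pool.Agent.Helper58_Revstack

open Finset

/-- The largest letter of a word. -/
def maxLetter (w : List ℕ) : ℕ := w.foldr max 0

theorem maxLetter_ge {w : List ℕ} {x : ℕ} (h : x ∈ w) : x ≤ maxLetter w := by
  induction w with
  | nil => simp at h
  | cons y l ih =>
    rcases List.mem_cons.1 h with rfl | h
    · exact le_max_left _ _
    · exact (ih h).trans (le_max_right _ _)

theorem maxLetter_mem {w : List ℕ} (h : w ≠ []) : maxLetter w ∈ w := by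
  induction w with
  | nil => exact absurd rfl h
  | cons y l ih =>
    rcases eq_or_ne l [] with rfl | hl
    · simp [maxLetter]
    · have h1 := ih hl
      have h2 : maxLetter (y :: l) = max y (maxLetter l) := rfl
      rw [h2]
      rcases le_total y (maxLetter l) with h3 | h3
      · rw [max_eq_right h3]; exact List.mem_cons_of_mem _ h1
      · rw [max_eq_left h3]; exact List.mem_cons_self

/-- The stack sort operator: `stackSort (L m R) = stackSort L ++ stackSort R ++ [m]`, where `m` is the
largest letter. -/
def stackSort : List ℕ → List ℕ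
  | [] => []
  | x :: l =>
    stackSort ((x :: l).takeWhile (fun y => y ≠ maxLetter (x :: l))) ++
      stackSort ((x :: l).dropWhile (fun y => y ≠ maxLetter (x :: l))).tail ++
      [maxLetter (x :: l)]
termination_by w => w.length
decreasing_by
  · have h1 := List.takeWhile_append_dropWhile (p := fun y => decide (y ≠ maxLetter (x :: l))) (l := x :: l)
    have h2 := congrArg List.length h1
    rw [List.length_append] at h2
    have h3 : (x :: l).dropWhile (fun y => decide (y ≠ maxLetter (x :: l))) ≠ [] := by
      intro h
      rw [List.dropWhile_eq_nil_iff] at h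
      have := h _ (maxLetter_mem (w := x :: l) (by simp))
      simp at this
    have h4 := List.length_pos_of_ne_nil h3
    omega
  · have h1 := List.takeWhile_append_dropWhile (p := fun y => decide (y ≠ maxLetter (x :: l))) (l := x :: l)
    have h2 := congrArg List.length h1
    rw [List.length_append] at h2
    rw [List.length_tail]
    have h3 : 0 < (x :: l).length := by simp
    omega

/-- The revstack sort operator. -/
def revstackSort (w : List ℕ) : List ℕ := stackSort w.reverse

theorem maxLetter_eq {L R : List ℕ} {m : ℕ} (hL : ∀ x ∈ L, x < m) (hR : ∀ x ∈ R, x < m) :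
    maxLetter (L ++ m :: R) = m := by
  apply le_antisymm
  · have h := maxLetter_mem (w := L ++ m :: R) (by simp)
    rcases List.mem_append.1 h with h | h
    · exact (hL _ h).le
    · rcases List.mem_cons.1 h with h | h
      · exact h.le
      · exact (hR _ h).le
  · exact maxLetter_ge (by simp)

theorem takeWhile_split {L R : List ℕ} {m : ℕ} (hL : ∀ x ∈ L, x < m) :
    (L ++ m :: R).takeWhile (fun y => decide (y ≠ m)) = L ∧
      (L ++ m :: R).dropWhile (fun y => decide (y ≠ m)) = m :: R := by
  induction L with
  | nil => simp
  | cons y L ih =>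
    have h1 : y < m := hL y (by simp)
    have h2 := ih (fun x hx => hL x (List.mem_cons_of_mem _ hx))
    have h3 : (fun y => decide (y ≠ m)) y = true := by simp; omega
    simp only [List.cons_append]
    rw [List.takeWhile_cons_of_pos (p := fun y => decide (y ≠ m)) h3,
      List.dropWhile_cons_of_pos (p := fun y => decide (y ≠ m)) h3, h2.1, h2.2]
    exact ⟨rfl, rfl⟩

theorem stackSort_split {L R : List ℕ} {m : ℕ} (hL : ∀ x ∈ L, x < m) (hR : ∀ x ∈ R, x < m) :
    stackSort (L ++ m :: R) = stackSort L ++ stackSort R ++ [m] := by
  have h0 : ∃ x l, L ++ m :: R = x :: l := by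
    cases L with
    | nil => exact ⟨m, R, rfl⟩
    | cons y L => exact ⟨y, L ++ m :: R, rfl⟩
  obtain ⟨x, l, h⟩ := h0
  have h1 := maxLetter_eq hL hR
  obtain ⟨h2, h3⟩ := takeWhile_split (R := R) hL
  rw [h, stackSort, ← h, h1, h2, h3]
  rfl

theorem stackSort_nil : stackSort [] = [] := by rw [stackSort]

theorem revstackSort_split {L R : List ℕ} {m : ℕ} (hL : ∀ x ∈ L, x < m) (hR : ∀ x ∈ R, x < m) :
    revstackSort (L ++ m :: R) = revstackSort R ++ (revstackSort L ++ [m]) := by
  unfold revstackSort
  have h : (L ++ m :: R).reverse = R.reverse ++ m :: L.reverse := by simp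
  rw [h, stackSort_split (by simpa using hR) (by simpa using hL), List.append_assoc]

theorem revstackSort_nil : revstackSort [] = [] := by
  unfold revstackSort
  rw [List.reverse_nil, stackSort_nil]

/-- induction on words without repeated letters -/
theorem word_induction {P : List ℕ → Prop} (h0 : P [])
    (h1 : ∀ L m R, (∀ x ∈ L, x < m) → (∀ x ∈ R, x < m) → L.Nodup → R.Nodup → L.Disjoint R →
      P L → P R → P (L ++ m :: R)) :
    ∀ w : List ℕ, w.Nodup → P w := by
  intro w
  induction h : w.length using Nat.strong_induction_on generalizing w with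
  | _ n ih =>
    intro hn
    rcases eq_or_ne w [] with rfl | hw
    · exact h0
    · obtain ⟨L, R, hLR⟩ := List.append_of_mem (maxLetter_mem hw)
      set m := maxLetter w with hm
      have hn' := hn
      rw [hLR, List.nodup_append, List.nodup_cons] at hn'
      obtain ⟨hL, ⟨hmR, hR⟩, hd⟩ := hn'
      have hL' : ∀ x ∈ L, x < m := by
        intro x hx
        have h3 : x ≤ m := maxLetter_ge (by rw [hLR]; simp [hx])
        have h4 : x ≠ m := hd x hx m (by simp)
        omega
      have hR' : ∀ x ∈ R, x < m := by
        intro x hx
        have h3 : x ≤ m := maxLetter_ge (by rw [hLR]; simp [hx])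
        have h4 : x ≠ m := fun h => hmR (h ▸ hx)
        omega
      have hlen : w.length = L.length + (R.length + 1) := by
        conv_lhs => rw [hLR]
        simp
      rw [hLR]
      refine h1 L m R hL' hR' hL hR ?_ (ih L.length (by omega) L rfl hL) (ih R.length (by omega) R rfl hR)
      intro x hx hx'
      exact hd x hx x (by simp [hx']) rfl

theorem stackSort_perm (w : List ℕ) (hw : w.Nodup) : (stackSort w).Perm w := by
  refine word_induction (P := fun w => (stackSort w).Perm w) ?_ ?_ w hw
  · rw [stackSort_nil]
  · intro L m R hL hR _ _ _ ih1 ih2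
    rw [stackSort_split hL hR]
    refine ((ih1.append ih2).append_right [m]).trans ?_
    rw [List.append_assoc]
    refine List.Perm.append_left L ?_
    exact List.perm_append_comm

theorem revstackSort_perm (w : List ℕ) (hw : w.Nodup) : (revstackSort w).Perm w :=
  (stackSort_perm _ (List.nodup_reverse.2 hw)).trans (List.reverse_perm w)

/-- `a` is before `b` in the word `l` -/
def bf (l : List ℕ) (a b : ℕ) : Prop := l.idxOf a < l.idxOf b

theorem bf_append (X Y : List ℕ) (a b : ℕ) : bf (X ++ Y) a b ↔
    (a ∈ X ∧ b ∈ X ∧ bf X a b) ∨ (a ∈ X ∧ b ∉ X) ∨ (a ∉ X ∧ b ∉ X ∧ bf Y a b) := by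
  unfold bf
  rw [List.idxOf_append, List.idxOf_append]
  by_cases ha : a ∈ X
  · by_cases hb : b ∈ X
    · simp [ha, hb]
    · have h1 := List.idxOf_lt_length_of_mem ha
      simp only [ha, hb, if_true, if_false, true_and, not_true, false_and, or_false, false_or,
        not_false_eq_true, iff_true]
      omega
  · by_cases hb : b ∈ X
    · have h1 := List.idxOf_lt_length_of_mem hb
      simp only [ha, hb, if_true, if_false, false_and, or_false, not_true, and_false, iff_false]
      omega
    · simp [ha, hb]

theorem bf_cons (m : ℕ) (Y : List ℕ) (a b : ℕ) : bf (m :: Y) a b ↔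
    (a = m ∧ b ≠ m) ∨ (a ≠ m ∧ b ≠ m ∧ bf Y a b) := by
  unfold bf
  rw [List.idxOf_cons, List.idxOf_cons]
  by_cases ha : m = a
  · subst ha
    by_cases hb : m = b
    · subst hb; simp
    · have h2 : (m == b) = false := by simpa using hb
      simp [h2, Ne.symm hb]
  · have h1 : (m == a) = false := by simpa using ha
    by_cases hb : m = b
    · subst hb
      simp [h1, Ne.symm ha]
    · have h2 : (m == b) = false := by simpa using hb
      simp [h1, h2, Ne.symm ha, Ne.symm hb]

theorem bf_trichotomy {l : List ℕ} {a b : ℕ} (ha : a ∈ l) (hab : a ≠ b) :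
    bf l a b ∨ bf l b a := by
  unfold bf
  rcases lt_trichotomy (l.idxOf a) (l.idxOf b) with h | h | h
  · exact Or.inl h
  · exact absurd ((List.idxOf_inj ha).1 h) hab
  · exact Or.inr h

theorem bf_trans {l : List ℕ} {a b c : ℕ} (h1 : bf l a b) (h2 : bf l b c) : bf l a c :=
  lt_trans h1 h2

theorem bf_asymm {l : List ℕ} {a b : ℕ} (h1 : bf l a b) (h2 : bf l b a) : False :=
  lt_asymm h1 h2

theorem bf_irrefl {l : List ℕ} {a : ℕ} (h1 : bf l a a) : False := lt_irrefl _ h1

/-- the inversions of `revstackSort w` -/
theorem inv_iff (w : List ℕ) (hw : w.Nodup) : ∀ a ∈ w, ∀ b ∈ w, a < b →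
    (bf (revstackSort w) b a ↔ ∃ c ∈ w, b < c ∧ bf w a c ∧ bf w c b) := by
  refine word_induction (P := fun w => ∀ a ∈ w, ∀ b ∈ w, a < b →
    (bf (revstackSort w) b a ↔ ∃ c ∈ w, b < c ∧ bf w a c ∧ bf w c b)) ?_ ?_ w hw
  · simp
  · intro L m R hL hR nL nR hd ihL ihR a ha b hb hab
    rw [revstackSort_split hL hR]
    have pL : ∀ x, x ∈ revstackSort L ↔ x ∈ L := fun x => (revstackSort_perm L nL).mem_iff
    have pR : ∀ x, x ∈ revstackSort R ↔ x ∈ R := fun x => (revstackSort_perm R nR).mem_iff
    have hmL : m ∉ L := fun h => lt_irrefl _ (hL m h)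
    have hmR : m ∉ R := fun h => lt_irrefl _ (hR m h)
    rw [bf_append, bf_append]
    simp only [pL, pR]
    have key : ∀ x y, bf (L ++ m :: R) x y ↔ (x ∈ L ∧ y ∈ L ∧ bf L x y) ∨ (x ∈ L ∧ y ∉ L) ∨
        (x ∉ L ∧ y ∉ L ∧ ((x = m ∧ y ≠ m) ∨ (x ≠ m ∧ y ≠ m ∧ bf R x y))) := by
      intro x y
      rw [bf_append, bf_cons]
    have hbm : ∀ x y, bf [m] x y ↔ x = m ∧ y ≠ m := by
      intro x y
      rw [bf_cons]
      simp [bf]
    rw [List.mem_append, List.mem_cons] at ha hb
    rcases ha with ha | rfl | ha
    · -- `a ∈ L`
      have haR : a ∉ R := fun h => hd ha h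
      rcases hb with hb | rfl | hb
      · have hbR : b ∉ R := fun h => hd hb h
        have hI := ihL a ha b hb hab
        constructor
        · rintro (h | h | ⟨-, -, h | h | h⟩)
          · exact absurd h.1 hbR
          · exact absurd h.1 hbR
          · obtain ⟨c, hc, h1, h2, h3⟩ := hI.1 h.2.2
            refine ⟨c, by simp [hc], h1, (key _ _).2 (Or.inl ⟨ha, hc, h2⟩),
              (key _ _).2 (Or.inl ⟨hc, hb, h3⟩)⟩
          · exact absurd ha h.2
          · exact absurd hb h.1
        · rintro ⟨c, hc, h1, h2, h3⟩
          rw [key] at h2 h3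
          have hcL : c ∈ L := by
            rcases h3 with h | h | h
            · exact h.1
            · exact h.1
            · exact absurd hb h.2.1
          refine Or.inr (Or.inr ⟨hbR, haR, Or.inl ⟨hb, ha, hI.2 ⟨c, hcL, h1, ?_, ?_⟩⟩⟩)
          · rcases h2 with h | h | h
            · exact h.2.2
            · exact absurd hcL h.2
            · exact absurd ha h.1
          · rcases h3 with h | h | h
            · exact h.2.2
            · exact absurd hb h.2
            · exact absurd hcL h.1
      · constructor
        · rintro (h | h | ⟨-, -, h | h | h⟩)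
          · exact absurd h.1 hmR
          · exact absurd h.1 hmR
          · exact absurd h.1 hmL
          · exact absurd h.1 hmL
          · exact absurd ha h.2.1
        · rintro ⟨c, hc, h1, -, -⟩
          rw [List.mem_append, List.mem_cons] at hc
          rcases hc with hc | hc | hc
          · exact absurd (hL c hc) (by omega)
          · omega
          · exact absurd (hR c hc) (by omega)
      · have hbL : b ∉ L := fun h => hd h hb
        constructor
        · intro _
          have h1 : b ≠ m := (hR b hb).ne
          exact ⟨m, by simp, hR b hb, (key _ _).2 (Or.inr (Or.inl ⟨ha, hmL⟩)),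
            (key _ _).2 (Or.inr (Or.inr ⟨hmL, hbL, Or.inl ⟨rfl, h1⟩⟩))⟩
        · intro _
          exact Or.inr (Or.inl ⟨hb, haR⟩)
    · -- `a = m`
      exfalso
      rcases hb with hb | rfl | hb
      · exact absurd (hL b hb) (by omega)
      · omega
      · exact absurd (hR b hb) (by omega)
    · -- `a ∈ R`
      have haL : a ∉ L := fun h => hd h ha
      rcases hb with hb | rfl | hb
      · have hbR : b ∉ R := fun h => hd hb h
        constructor
        · rintro (h | h | ⟨-, h1, -⟩)
          · exact absurd h.1 hbR
          · exact absurd h.1 hbR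
          · exact absurd ha h1
        · rintro ⟨c, hc, h1, h2, h3⟩
          exfalso
          rw [key] at h2 h3
          have hcL : c ∈ L := by
            rcases h3 with h | h | h
            · exact h.1
            · exact h.1
            · exact absurd hb h.2.1
          rcases h2 with h | h | h
          · exact haL h.1
          · exact haL h.1
          · exact h.2.1 hcL
      · constructor
        · rintro (h | h | ⟨-, h1, -⟩)
          · exact absurd h.1 hmR
          · exact absurd h.1 hmR
          · exact absurd ha h1
        · rintro ⟨c, hc, h1, -, -⟩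
          rw [List.mem_append, List.mem_cons] at hc
          rcases hc with hc | hc | hc
          · exact absurd (hL c hc) (by omega)
          · omega
          · exact absurd (hR c hc) (by omega)
      · have hbL : b ∉ L := fun h => hd h hb
        have hI := ihR a ha b hb hab
        have ham : a ≠ m := (hR a ha).ne
        have hbm' : b ≠ m := (hR b hb).ne
        constructor
        · rintro (h | h | ⟨-, h1, -⟩)
          · obtain ⟨c, hc, h1, h2, h3⟩ := hI.1 h.2.2
            have hcL : c ∉ L := fun h => hd h hc
            have hcm : c ≠ m := (hR c hc).ne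
            exact ⟨c, by simp [hc], h1, (key _ _).2 (Or.inr (Or.inr ⟨haL, hcL, Or.inr ⟨ham, hcm, h2⟩⟩)),
              (key _ _).2 (Or.inr (Or.inr ⟨hcL, hbL, Or.inr ⟨hcm, hbm', h3⟩⟩))⟩
          · exact absurd ha h.2
          · exact absurd ha h1
        · rintro ⟨c, hc, h1, h2, h3⟩
          rw [key] at h2 h3
          have h2' : c ≠ m ∧ bf R a c := by
            rcases h2 with h | h | h
            · exact absurd h.1 haL
            · exact absurd h.1 haL
            · rcases h.2.2 with h' | h'
              · exact absurd h'.1 ham
              · exact h'.2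
          have hcL : c ∉ L := by
            rcases h2 with h | h | h
            · exact absurd h.1 haL
            · exact absurd h.1 haL
            · exact h.2.1
          have hcR : c ∈ R := by
            rw [List.mem_append, List.mem_cons] at hc
            rcases hc with hc | hc | hc
            · exact absurd hc hcL
            · exact absurd hc h2'.1
            · exact hc
          refine Or.inl ⟨hb, ha, hI.2 ⟨c, hcR, h1, h2'.2, ?_⟩⟩
          rcases h3 with h | h | h
          · exact absurd h.1 hcL
          · exact absurd h.1 hcL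
          · rcases h.2.2 with h' | h'
            · exact absurd h'.1 h2'.1
            · exact h'.2.2

end Pool.Agent.Helper58_Revstack
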