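import Pool.Agent.Helper58_Revstack.Ins

/-!
# Counting the words with long greedy chains (helper58, MP_78620a_co)
-/

set_option autoImplicit false

namespace Pool.Agent.Helper58_Revstack

open Finset

/-- all words which arise from `w` by inserting `k`, `k - 1`, …, `1` -/
def E : ℕ → List ℕ → Finset (List ℕ)
  | 0, w => {w}
  | k + 1, w => (range (w.length + 1)).biUnion fun i => E k (ins w i (k + 1))

/-- `G (G + 1) ⋯ (G + k - 1)` -/
def A : ℕ → ℕ → ℕ
  | _, 0 => 1
  | G, k + 1 => G * A (G + 1) k

theorem A_one (k : ℕ) : ∀ G : ℕ, A (G + 1) k * G.factorial = (G + k).factorial := by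
  induction k with
  | zero => intro G; simp [A]
  | succ k ih =>
    intro G
    have h1 := ih (G + 1)
    have h2 : G + (k + 1) = G + 1 + k := by ring
    rw [h2, ← h1, A, Nat.factorial_succ]
    ring

theorem A_fact (n : ℕ) : A 1 n = n.factorial := by
  have := A_one n 0
  simpa using this

theorem E_card (k : ℕ) : ∀ w : List ℕ, (E k w).card ≤ A (w.length + 1) k := by
  induction k with
  | zero => intro w; simp [E, A]
  | succ k ih =>
    intro w
    unfold E
    refine card_biUnion_le.trans ?_
    have h1 : ∀ i ∈ range (w.length + 1), (E k (ins w i (k + 1))).card ≤ A (w.length + 1 + 1) k := by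
      intro i _
      have := ih (ins w i (k + 1))
      rwa [length_ins] at this
    refine (sum_le_card_nsmul _ _ _ h1).trans ?_
    rw [card_range, smul_eq_mul, A]

theorem E_spec (k : ℕ) : ∀ w : List ℕ, w.Nodup → (∀ z ∈ w, k < z) → ∀ π ∈ E k w,
    π.Nodup ∧ (∀ x ∈ w, x ∈ π) ∧ π.filter (fun z => decide (k < z)) = w := by
  induction k with
  | zero =>
    intro w hw hk π hπ
    simp only [E, mem_singleton] at hπ
    subst hπ
    refine ⟨hw, fun x hx => hx, ?_⟩
    rw [List.filter_eq_self]
    intro a ha
    simpa using hk a ha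
  | succ k ih =>
    intro w hw hk π hπ
    unfold E at hπ
    rw [mem_biUnion] at hπ
    obtain ⟨i, -, hi⟩ := hπ
    have hkw : k + 1 ∉ w := fun h => lt_irrefl _ (hk _ h)
    obtain ⟨h1, h2, h3⟩ := ih (ins w i (k + 1)) (nodup_ins hw i hkw) (by
      intro z hz
      rw [mem_ins] at hz
      rcases hz with rfl | hz
      · omega
      · have := hk z hz; omega) π hi
    refine ⟨h1, fun x hx => h2 x ((mem_ins _ _ _ _).2 (Or.inr hx)), ?_⟩
    have h4 : π.filter (fun z => decide (k + 1 < z)) =
        (π.filter (fun z => decide (k < z))).filter (ne (k + 1)) := by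
      rw [List.filter_filter]
      refine List.filter_congr fun x _ => ?_
      rw [Bool.eq_iff_iff]
      simp only [decide_eq_true_eq, Bool.and_eq_true, ne_iff]
      omega
    rw [h4, h3, filter_ne_ins hkw]

theorem mem_E (k : ℕ) : ∀ w π : List ℕ, π.Nodup → (∀ x, 1 ≤ x → x ≤ k → x ∈ π) →
    (∀ x ∈ π, 1 ≤ x) → π.filter (fun z => decide (k < z)) = w → π ∈ E k w := by
  induction k with
  | zero =>
    intro w π _ _ h1 h2
    simp only [E, mem_singleton]
    rw [← h2, eq_comm, List.filter_eq_self]
    intro a ha
    have := h1 a ha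
    simpa using (by omega : 0 < a)
  | succ k ih =>
    intro w π hπ hall hpos hf
    have hkm : k + 1 ∈ π.filter (fun z => decide (k < z)) :=
      List.mem_filter.2 ⟨hall (k + 1) (by omega) le_rfl, by simp⟩
    obtain ⟨X, Y, hXY⟩ := List.append_of_mem hkm
    have hnd : (π.filter (fun z => decide (k < z))).Nodup := hπ.filter _
    have h4 : π.filter (fun z => decide (k + 1 < z)) =
        (π.filter (fun z => decide (k < z))).filter (ne (k + 1)) := by
      rw [List.filter_filter]
      refine List.filter_congr fun x _ => ?_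
      rw [Bool.eq_iff_iff]
      simp only [decide_eq_true_eq, Bool.and_eq_true, ne_iff]
      omega
    have hX : k + 1 ∉ X ++ Y := by
      rw [hXY] at hnd
      have := List.nodup_middle.1 hnd
      exact (List.nodup_cons.1 this).1
    have hw : w = X ++ Y := by
      rw [← hf, h4, hXY, List.filter_append, List.filter_cons_of_neg (by simp [ne]),
        ← List.filter_append, filter_ne_self hX]
    have hins : π.filter (fun z => decide (k < z)) = ins w X.length (k + 1) := by
      rw [hXY, hw]
      unfold ins
      rw [List.take_left', List.drop_left'] <;> rfl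
    unfold E
    rw [mem_biUnion]
    refine ⟨X.length, mem_range.2 ?_, ?_⟩
    · rw [hw, List.length_append]; omega
    · exact ih _ π hπ (fun x h1 h2 => hall x h1 (by omega)) hpos hins

open Classical in
/-- the number of words in `E k w` with the property `P` -/
noncomputable def cnt (k : ℕ) (w : List ℕ) (P : List ℕ → Prop) : ℕ := ((E k w).filter P).card

theorem cnt_le (k : ℕ) (w : List ℕ) (P : List ℕ → Prop) : cnt k w P ≤ A (w.length + 1) k := by
  classical
  exact (card_filter_le _ _).trans (E_card k w)

theorem cnt_mono (k : ℕ) (w : List ℕ) (P Q : List ℕ → Prop) (h : ∀ π ∈ E k w, P π → Q π) :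
    cnt k w P ≤ cnt k w Q := by
  classical
  refine card_le_card fun π hπ => ?_
  obtain ⟨h1, h2⟩ := mem_filter.1 hπ
  exact mem_filter.2 ⟨h1, h π h1 h2⟩

theorem cnt_succ (k : ℕ) (w : List ℕ) (P : List ℕ → Prop) :
    cnt (k + 1) w P ≤ ∑ i ∈ range (w.length + 1), cnt k (ins w i (k + 1)) P := by
  classical
  unfold cnt
  have h1 : E (k + 1) w = (range (w.length + 1)).biUnion fun i => E k (ins w i (k + 1)) := rfl
  rw [h1, filter_biUnion]
  exact card_biUnion_le

/-- the real inequality -/
theorem pot {lam mu β G r : ℝ} (hl : 1 ≤ lam) (hmu : mu = (1 + lam) / 2) (hβ : β * mu = lam - 1)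
    (hG : 0 < G) (hr : 0 ≤ r) (hrG : r ≤ G) :
    r * (lam * (1 + β * (G - r) / (G + 1))) + (G - r) * (1 + β * r / (G + 1)) ≤
      G * (mu * (1 + β * r / G)) := by
  have hmu0 : 0 < mu := by rw [hmu]; linarith
  have hβ0 : 0 ≤ β := by
    by_contra h
    push Not at h
    nlinarith
  have h1 : β * (G - r) / (G + 1) ≤ β * (G - r) / G := by
    apply div_le_div_of_nonneg_left (mul_nonneg hβ0 (by linarith)) hG (by linarith)
  have h2 : β * r / (G + 1) ≤ β * r / G := by
    apply div_le_div_of_nonneg_left (mul_nonneg hβ0 hr) hG (by linarith)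
  have h3 : r * (lam * (1 + β * (G - r) / (G + 1))) ≤ r * (lam * (1 + β * (G - r) / G)) := by
    apply mul_le_mul_of_nonneg_left _ hr
    apply mul_le_mul_of_nonneg_left _ (by linarith)
    linarith
  have h4 : (G - r) * (1 + β * r / (G + 1)) ≤ (G - r) * (1 + β * r / G) := by
    apply mul_le_mul_of_nonneg_left _ (by linarith)
    linarith
  refine (add_le_add h3 h4).trans ?_
  have hlam : lam = 2 * mu - 1 := by rw [hmu]; ring
  have hβ' : β = (2 * mu - 2) / mu := by
    rw [eq_div_iff hmu0.ne', hβ, hlam]; ring
  have h5 : G * (mu * (1 + β * r / G)) - (r * (lam * (1 + β * (G - r) / G)) +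
      (G - r) * (1 + β * r / G)) = 4 * (mu - 1) * (r - G / 2) ^ 2 / G := by
    rw [hβ', hlam]
    field_simp
    ring
  have h6 : 0 ≤ 4 * (mu - 1) * (r - G / 2) ^ 2 / G := by
    have : 0 ≤ mu - 1 := by rw [hmu]; linarith
    positivity
  linarith

theorem main_bound {lam mu β : ℝ} (hl : 1 ≤ lam) (hmu : mu = (1 + lam) / 2)
    (hβ : β * mu = lam - 1) (k : ℕ) : ∀ (q s a : ℕ) (w : List ℕ), w.Nodup → (∀ z ∈ w, k < z) →
    a ∈ w → (∀ z, ¬ R s w a z) →
    lam ^ q * (cnt k w (fun π => Ch π s a q) : ℝ) ≤
      A (w.length + 1) k * mu ^ k * (1 + β * (good w s a).card / ((w.length : ℝ) + 1)) := by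
  classical
  have hmu1 : 1 ≤ mu := by rw [hmu]; linarith
  have hβ0 : 0 ≤ β := by
    by_contra h
    push Not at h
    nlinarith
  induction k with
  | zero =>
    intro q s a w hw hk ha hno
    cases q with
    | zero =>
      have h1 : (cnt 0 w (fun π => Ch π s a 0) : ℝ) ≤ A (w.length + 1) 0 := by
        exact_mod_cast cnt_le _ _ _
      have h2 : (0 : ℝ) ≤ β * (good w s a).card / ((w.length : ℝ) + 1) := by positivity
      simp only [pow_zero, one_mul, mul_one]
      simp only [A, Nat.cast_one, one_mul] at h1 ⊢
      linarith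
    | succ q =>
      have h1 : cnt 0 w (fun π => Ch π s a (q + 1)) = 0 := by
        unfold cnt
        rw [card_eq_zero, filter_eq_empty_iff]
        intro π hπ
        simp only [E, mem_singleton] at hπ
        subst hπ
        rintro ⟨b, hb, -⟩
        exact hno b hb.1
      rw [h1, Nat.cast_zero, mul_zero]
      have h2 : (0 : ℝ) ≤ β * (good w s a).card / ((w.length : ℝ) + 1) := by positivity
      have h3 : (0 : ℝ) ≤ mu ^ 0 := by simp
      positivity
  | succ k ih =>
    intro q s a w hw hk ha hno
    have hkw : k + 1 ∉ w := fun h => lt_irrefl _ (hk _ h)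
    have hw0 : ∀ z ∈ w, 0 < z := fun z hz => by have := hk z hz; omega
    have hG : (0 : ℝ) < (w.length : ℝ) + 1 := by positivity
    have hmu0 : (0 : ℝ) < mu := by linarith
    cases q with
    | zero =>
      have h1 : (cnt (k + 1) w (fun π => Ch π s a 0) : ℝ) ≤ A (w.length + 1) (k + 1) := by
        exact_mod_cast cnt_le _ _ _
      have h2 : (0 : ℝ) ≤ β * (good w s a).card / ((w.length : ℝ) + 1) := by positivity
      rw [pow_zero, one_mul]
      refine h1.trans ?_
      have h3 : (1 : ℝ) ≤ mu ^ (k + 1) := one_le_pow₀ hmu1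
      have h4 : (0 : ℝ) ≤ A (w.length + 1) (k + 1) := Nat.cast_nonneg _
      calc ((A (w.length + 1) (k + 1) : ℕ) : ℝ) = A (w.length + 1) (k + 1) * 1 * 1 := by ring
        _ ≤ _ := by
          apply mul_le_mul (mul_le_mul_of_nonneg_left h3 h4) (by linarith) (by norm_num)
          positivity
    | succ q =>
      set Gn : ℝ := (w.length : ℝ) + 1 with hGn
      set r : ℝ := ((good w s a).card : ℝ) with hr
      set Ak : ℝ := ((A (w.length + 1 + 1) k : ℕ) : ℝ) with hAk
      have hAk0 : 0 ≤ Ak := Nat.cast_nonneg _
      have hM0 : 0 ≤ mu ^ k := by positivity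
      have hposi : ∀ i, ∀ z ∈ ins w i (k + 1), k < z := by
        intro i z hz
        rw [mem_ins] at hz
        rcases hz with rfl | hz
        · omega
        · have := hk z hz; omega
      -- a good gap
      have hgood : ∀ i ∈ good w s a, lam ^ (q + 1) *
          (cnt k (ins w i (k + 1)) (fun π => Ch π s a (q + 1)) : ℝ) ≤
          lam * (Ak * mu ^ k * (1 + β * (Gn - r) / (Gn + 1))) := by
        intro i hi
        have hi' := (mem_good _ _ _ _).1 hi
        have h1 : cnt k (ins w i (k + 1)) (fun π => Ch π s a (q + 1)) ≤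
            cnt k (ins w i (k + 1)) (fun π => Ch π (s + 1) (k + 1) q) := by
          apply cnt_mono
          rintro π hπ ⟨b, hb, hc⟩
          obtain ⟨n1, n2, n3⟩ := E_spec k _ (nodup_ins hw i hkw) (hposi i) π hπ
          have haπ : a ∈ π := n2 a ((mem_ins _ _ _ _).2 (Or.inr ha))
          have hka : k < a := by have := hk a ha; omega
          have hR : ∀ z, k < z → (R s π a z ↔ R s (ins w i (k + 1)) a z) := by
            intro z hz
            have := R_filter (fun z => decide (k < z)) π n1 (cl_lt k π) s (a := a) (z := z) haπ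
              (by simpa using hka) (by simpa using hz)
            rwa [n3] at this
          have hRk : R s π a (k + 1) := by
            rw [hR _ (by omega)]
            exact R_relabel hw hw0 hk i s ha hi'.2
          have hkb : k + 1 ≤ b := hb.2 _ hRk
          have hbk : b = k + 1 := by
            by_contra hne
            have h2 := (hR b (by omega)).1 hb.1
            have h3 := (R_ins hw hk i s ha hne).1 h2
            exact hno b h3
          rwa [hbk] at hc
        have h2 := ih q (s + 1) (k + 1) (ins w i (k + 1)) (nodup_ins hw i hkw) (hposi i)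
          ((mem_ins _ _ _ _).2 (Or.inl rfl)) (by
            rintro z ⟨hz, hz', -⟩
            have := hposi i z hz
            omega)
        rw [length_ins] at h2
        have h3 : ((good (ins w i (k + 1)) (s + 1) (k + 1)).card : ℝ) ≤ Gn - r := by
          have := good_hit hw (by omega : 0 < k + 1) hk hi'.1 ha hno hi
          have h4 : ((good (ins w i (k + 1)) (s + 1) (k + 1)).card : ℝ) + (good w s a).card ≤
            w.length + 1 := by exact_mod_cast this
          linarith
        have h5 : (cnt k (ins w i (k + 1)) (fun π => Ch π s a (q + 1)) : ℝ) ≤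
            cnt k (ins w i (k + 1)) (fun π => Ch π (s + 1) (k + 1) q) := by exact_mod_cast h1
        calc lam ^ (q + 1) * (cnt k (ins w i (k + 1)) (fun π => Ch π s a (q + 1)) : ℝ)
            = lam * (lam ^ q * (cnt k (ins w i (k + 1)) (fun π => Ch π s a (q + 1)) : ℝ)) := by ring
          _ ≤ lam * (lam ^ q * (cnt k (ins w i (k + 1)) (fun π => Ch π (s + 1) (k + 1) q) : ℝ)) := by
            gcongr
          _ ≤ lam * (A (w.length + 1 + 1) k * mu ^ k *
              (1 + β * (good (ins w i (k + 1)) (s + 1) (k + 1)).card /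
                (((w.length + 1 : ℕ) : ℝ) + 1))) := by gcongr
          _ ≤ _ := by
            push_cast
            gcongr
      have hbad : ∀ i ∈ range (w.length + 1) \ good w s a, lam ^ (q + 1) *
          (cnt k (ins w i (k + 1)) (fun π => Ch π s a (q + 1)) : ℝ) ≤
          Ak * mu ^ k * (1 + β * r / (Gn + 1)) := by
        intro i hi
        rw [mem_sdiff, mem_range] at hi
        obtain ⟨hi1, hi2⟩ := hi
        have h2 := ih (q + 1) s a (ins w i (k + 1)) (nodup_ins hw i hkw) (hposi i)
          ((mem_ins _ _ _ _).2 (Or.inr ha)) (by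
            intro z hz
            rcases eq_or_ne z (k + 1) with rfl | hne
            · exact hi2 ((mem_good _ _ _ _).2 ⟨by omega, R_relabel hw hk hw0 i s ha hz⟩)
            · exact hno z ((R_ins hw hk i s ha hne).1 hz))
        rw [length_ins] at h2
        have h3 : ((good (ins w i (k + 1)) s a).card : ℝ) ≤ r := by
          rw [hr]
          exact_mod_cast good_skip hw (by omega : 0 < k + 1) hk (by omega) ha hi2
        refine h2.trans ?_
        push_cast
        gcongr
      have hsub : good w s a ⊆ range (w.length + 1) := filter_subset _ _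
      have hcard : (((range (w.length + 1) \ good w s a).card : ℕ) : ℝ) = Gn - r := by
        rw [card_sdiff_of_subset hsub, card_range, Nat.cast_sub (good_card_le w s a)]
        push_cast
        rfl
      have hrG : r ≤ Gn := by
        have := good_card_le w s a
        rw [hr, hGn]
        exact_mod_cast this
      calc lam ^ (q + 1) * (cnt (k + 1) w (fun π => Ch π s a (q + 1)) : ℝ)
          ≤ lam ^ (q + 1) * ∑ i ∈ range (w.length + 1),
            (cnt k (ins w i (k + 1)) (fun π => Ch π s a (q + 1)) : ℝ) := by
            gcongr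
            exact_mod_cast cnt_succ _ _ _
        _ = ∑ i ∈ range (w.length + 1), lam ^ (q + 1) *
            (cnt k (ins w i (k + 1)) (fun π => Ch π s a (q + 1)) : ℝ) := by rw [mul_sum]
        _ = ∑ i ∈ range (w.length + 1) \ good w s a, lam ^ (q + 1) *
            (cnt k (ins w i (k + 1)) (fun π => Ch π s a (q + 1)) : ℝ) +
            ∑ i ∈ good w s a, lam ^ (q + 1) *
            (cnt k (ins w i (k + 1)) (fun π => Ch π s a (q + 1)) : ℝ) := by
              rw [sum_sdiff hsub]
        _ ≤ (Gn - r) * (Ak * mu ^ k * (1 + β * r / (Gn + 1))) +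
            r * (lam * (Ak * mu ^ k * (1 + β * (Gn - r) / (Gn + 1)))) := by
              refine add_le_add ?_ ?_
              · refine (sum_le_card_nsmul _ _ _ hbad).trans ?_
                rw [nsmul_eq_mul, hcard]
              · refine (sum_le_card_nsmul _ _ _ hgood).trans ?_
                rw [nsmul_eq_mul]
        _ = Ak * mu ^ k * (r * (lam * (1 + β * (Gn - r) / (Gn + 1))) +
            (Gn - r) * (1 + β * r / (Gn + 1))) := by ring
        _ ≤ Ak * mu ^ k * (Gn * (mu * (1 + β * r / Gn))) := by
              gcongr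
              exact pot hl hmu hβ hG (Nat.cast_nonneg _) hrG
        _ = _ := by
              have : ((A (w.length + 1) (k + 1) : ℕ) : ℝ) = Gn * Ak := by
                rw [A, hGn, hAk]; push_cast; ring
              rw [this]
              ring

/-- the words with a long chain from `p + 1` -/
theorem start_bound {lam mu β : ℝ} (hl : 1 ≤ lam) (hmu : mu = (1 + lam) / 2)
    (hβ : β * mu = lam - 1) (p q : ℕ) (j : ℕ) : ∀ w : List ℕ, w.Nodup → (∀ z ∈ w, p + 1 + j < z) →
    lam ^ q * (cnt (p + 1 + j) w (fun π => Ch π 0 (p + 1) q) : ℝ) ≤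
      A (w.length + 1) (p + 1 + j) * mu ^ p * (1 + β) := by
  have hmu1 : 1 ≤ mu := by rw [hmu]; linarith
  have hβ0 : 0 ≤ β := by
    by_contra h
    push Not at h
    nlinarith
  have gen : ∀ (m : ℕ) (w : List ℕ), (∀ i ∈ range (w.length + 1),
      lam ^ q * (cnt m (ins w i (m + 1)) (fun π => Ch π 0 (p + 1) q) : ℝ) ≤
        A (w.length + 1 + 1) m * mu ^ p * (1 + β)) →
      lam ^ q * (cnt (m + 1) w (fun π => Ch π 0 (p + 1) q) : ℝ) ≤
        A (w.length + 1) (m + 1) * mu ^ p * (1 + β) := by
    intro m w h
    calc lam ^ q * (cnt (m + 1) w (fun π => Ch π 0 (p + 1) q) : ℝ)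
        ≤ lam ^ q * ∑ i ∈ range (w.length + 1),
            (cnt m (ins w i (m + 1)) (fun π => Ch π 0 (p + 1) q) : ℝ) := by
            gcongr
            exact_mod_cast cnt_succ _ _ _
      _ = ∑ i ∈ range (w.length + 1), lam ^ q *
            (cnt m (ins w i (m + 1)) (fun π => Ch π 0 (p + 1) q) : ℝ) := by rw [mul_sum]
      _ ≤ (range (w.length + 1)).card • (A (w.length + 1 + 1) m * mu ^ p * (1 + β)) :=
          sum_le_card_nsmul _ _ _ h
      _ = _ := by
          rw [card_range, nsmul_eq_mul]
          have : ((A (w.length + 1) (m + 1) : ℕ) : ℝ) =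
            ((w.length + 1 : ℕ) : ℝ) * (A (w.length + 1 + 1) m : ℕ) := by rw [A]; push_cast; ring
          rw [this]
          ring
  induction j with
  | zero =>
    intro w hw hk
    refine gen p w fun i hi => ?_
    have hkw : p + 1 ∉ w := fun h => lt_irrefl _ (hk _ h)
    have hposi : ∀ z ∈ ins w i (p + 1), p < z := by
      intro z hz
      rw [mem_ins] at hz
      rcases hz with rfl | hz
      · omega
      · have := hk z hz; omega
    have h1 := main_bound hl hmu hβ p q 0 (p + 1) (ins w i (p + 1)) (nodup_ins hw i hkw) hposi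
      ((mem_ins _ _ _ _).2 (Or.inl rfl)) (by
        rintro z ⟨hz, hz', -⟩
        have := hposi z hz
        omega)
    rw [length_ins] at h1
    refine h1.trans ?_
    have h2 : β * ((good (ins w i (p + 1)) 0 (p + 1)).card : ℝ) / (((w.length + 1 : ℕ) : ℝ) + 1) ≤
        β := by
      rw [div_le_iff₀ (by positivity)]
      have h3 := good_card_le (ins w i (p + 1)) 0 (p + 1)
      rw [length_ins] at h3
      have h4 : ((good (ins w i (p + 1)) 0 (p + 1)).card : ℝ) ≤ ((w.length + 1 : ℕ) : ℝ) + 1 := by
        exact_mod_cast h3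
      exact mul_le_mul_of_nonneg_left h4 hβ0
    gcongr
  | succ j ih =>
    intro w hw hk
    refine gen (p + 1 + j) w fun i hi => ?_
    have hkw : p + 1 + j + 1 ∉ w := fun h => lt_irrefl _ (hk _ h)
    have h1 := ih (ins w i (p + 1 + j + 1)) (nodup_ins hw i hkw) (by
      intro z hz
      rw [mem_ins] at hz
      rcases hz with rfl | hz
      · omega
      · have := hk z hz; omega)
    rwa [length_ins] at h1

end Pool.Agent.Helper58_Revstack
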