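import Pool.Agent.Helper58_Revstack.Basic

/-!
# The dynamics of revstack sort: greedy chains (helper58, MP_78620a_co)
-/

set_option autoImplicit false

namespace Pool.Agent.Helper58_Revstack

open Finset

theorem it_perm (s : ℕ) (w : List ℕ) (hw : w.Nodup) : (revstackSort^[s] w).Perm w := by
  induction s with
  | zero => exact List.Perm.refl _
  | succ s ih =>
    rw [Function.iterate_succ_apply']
    exact (revstackSort_perm _ (ih.nodup_iff.2 hw)).trans ih

theorem it_mem (s : ℕ) (w : List ℕ) (hw : w.Nodup) (x : ℕ) : x ∈ revstackSort^[s] w ↔ x ∈ w :=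
  (it_perm s w hw).mem_iff

theorem it_nodup (s : ℕ) (w : List ℕ) (hw : w.Nodup) : (revstackSort^[s] w).Nodup :=
  (it_perm s w hw).nodup_iff.2 hw

/-- `a` is before `b` at time `s` -/
def B (s : ℕ) (w : List ℕ) (a b : ℕ) : Prop := bf (revstackSort^[s] w) a b

theorem B_succ (s : ℕ) (w : List ℕ) (hw : w.Nodup) {a b : ℕ} (ha : a ∈ w) (hb : b ∈ w)
    (hab : a < b) : B (s + 1) w b a ↔ ∃ c ∈ w, b < c ∧ B s w a c ∧ B s w c b := by
  unfold B
  rw [Function.iterate_succ_apply', inv_iff _ (it_nodup s w hw) a ((it_mem s w hw a).2 ha) b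
    ((it_mem s w hw b).2 hb) hab]
  constructor
  · rintro ⟨c, hc, h⟩
    exact ⟨c, (it_mem s w hw c).1 hc, h⟩
  · rintro ⟨c, hc, h⟩
    exact ⟨c, (it_mem s w hw c).2 hc, h⟩

theorem B_tri {s : ℕ} {w : List ℕ} (hw : w.Nodup) {a b : ℕ} (ha : a ∈ w) (hab : a ≠ b) :
    B s w a b ∨ B s w b a := bf_trichotomy ((it_mem s w hw a).2 ha) hab

theorem B_trans {s : ℕ} {w : List ℕ} {a b c : ℕ} (h1 : B s w a b) (h2 : B s w b c) : B s w a c :=
  bf_trans h1 h2

theorem B_asymm {s : ℕ} {w : List ℕ} {a b : ℕ} (h1 : B s w a b) (h2 : B s w b a) : False :=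
  bf_asymm h1 h2

theorem B_irrefl {s : ℕ} {w : List ℕ} {a : ℕ} (h1 : B s w a a) : False := bf_irrefl h1

theorem B_not {s : ℕ} {w : List ℕ} (hw : w.Nodup) {a b : ℕ} (ha : a ∈ w) (hab : a ≠ b) :
    ¬ B s w a b ↔ B s w b a :=
  ⟨fun h => (B_tri hw ha hab).resolve_left h, fun h h' => B_asymm h h'⟩

/-- order in a filtered list -/
theorem bf_filter (p : ℕ → Bool) (l : List ℕ) {a b : ℕ} (ha : p a = true)
    (hb : p b = true) : bf l a b ↔ bf (l.filter p) a b := by
  induction l with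
  | nil => simp [bf]
  | cons x l ih =>
    rw [bf_cons]
    by_cases hx : p x = true
    · rw [List.filter_cons_of_pos hx, bf_cons, ih]
    · rw [List.filter_cons_of_neg hx, ← ih]
      have h1 : a ≠ x := fun h => hx (h ▸ ha)
      have h2 : b ≠ x := fun h => hx (h ▸ hb)
      simp [h1, h2]

/-- the predicate `p` is closed for `w`: it holds for all letters larger than two letters in `p` -/
def Cl (p : ℕ → Bool) (w : List ℕ) : Prop :=
  ∀ a ∈ w, ∀ b ∈ w, ∀ c ∈ w, a < b → b < c → p a = true → p b = true → p c = true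

theorem B_filter (p : ℕ → Bool) (w : List ℕ) (hw : w.Nodup) (hp : Cl p w) (s : ℕ) :
    ∀ a ∈ w, ∀ b ∈ w, p a = true → p b = true → (B s w a b ↔ B s (w.filter p) a b) := by
  have hwf : (w.filter p).Nodup := hw.filter p
  induction s with
  | zero =>
    intro a ha b hb pa pb
    exact bf_filter p w pa pb
  | succ s ih =>
    have key : ∀ a ∈ w, ∀ b ∈ w, p a = true → p b = true → a < b →
        (B (s + 1) w b a ↔ B (s + 1) (w.filter p) b a) := by
      intro a ha b hb pa pb hab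
      have ha' : a ∈ w.filter p := List.mem_filter.2 ⟨ha, pa⟩
      have hb' : b ∈ w.filter p := List.mem_filter.2 ⟨hb, pb⟩
      rw [B_succ s w hw ha hb hab, B_succ s _ hwf ha' hb' hab]
      constructor
      · rintro ⟨c, hc, h1, h2, h3⟩
        have pc := hp a ha b hb c hc hab h1 pa pb
        exact ⟨c, List.mem_filter.2 ⟨hc, pc⟩, h1, (ih a ha c hc pa pc).1 h2, (ih c hc b hb pc pb).1 h3⟩
      · rintro ⟨c, hc', h1, h2, h3⟩
        obtain ⟨hc, pc⟩ := List.mem_filter.1 hc'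
        exact ⟨c, hc, h1, (ih a ha c hc pa pc).2 h2, (ih c hc b hb pc pb).2 h3⟩
    intro a ha b hb pa pb
    have ha' : a ∈ w.filter p := List.mem_filter.2 ⟨ha, pa⟩
    have hb' : b ∈ w.filter p := List.mem_filter.2 ⟨hb, pb⟩
    rcases lt_trichotomy a b with h | h | h
    · rw [← B_not hw hb h.ne', ← B_not hwf hb' h.ne', key a ha b hb pa pb h]
    · subst h
      exact ⟨fun h => absurd h B_irrefl, fun h => absurd h B_irrefl⟩
    · exact key b hb a ha pb pa h

/-- `z` is one of the letters in the right part of the block of `a` at time `s`: it is to the right of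
`a`, and there is no letter larger than `a` between them (nor is `z` larger than `a`) -/
def R (s : ℕ) (w : List ℕ) (a z : ℕ) : Prop :=
  z ∈ w ∧ z < a ∧ B s w a z ∧ ∀ c ∈ w, B s w a c → B s w c z → c ≤ a

/-- `b` is the largest letter in the right part of the block of `a` at time `s` -/
def IsNext (s : ℕ) (w : List ℕ) (a b : ℕ) : Prop := R s w a b ∧ ∀ z, R s w a z → z ≤ b

/-- a greedy chain of length `q` starts in `a` at time `s` -/
def Ch (w : List ℕ) : ℕ → ℕ → ℕ → Prop
  | _, _, 0 => True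
  | s, a, q + 1 => ∃ b, IsNext s w a b ∧ Ch w (s + 1) b q

theorem R_filter (p : ℕ → Bool) (w : List ℕ) (hw : w.Nodup) (hp : Cl p w) (s : ℕ) {a z : ℕ}
    (ha : a ∈ w) (pa : p a = true) (pz : p z = true) : R s w a z ↔ R s (w.filter p) a z := by
  constructor
  · rintro ⟨hz, h1, h2, h3⟩
    refine ⟨List.mem_filter.2 ⟨hz, pz⟩, h1, (B_filter p w hw hp s a ha z hz pa pz).1 h2, ?_⟩
    intro c hc' h4 h5
    obtain ⟨hc, pc⟩ := List.mem_filter.1 hc'
    exact h3 c hc ((B_filter p w hw hp s a ha c hc pa pc).2 h4)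
      ((B_filter p w hw hp s c hc z hz pc pz).2 h5)
  · rintro ⟨hz', h1, h2, h3⟩
    obtain ⟨hz, -⟩ := List.mem_filter.1 hz'
    refine ⟨hz, h1, (B_filter p w hw hp s a ha z hz pa pz).2 h2, ?_⟩
    intro c hc h4 h5
    by_contra hca
    push Not at hca
    have pc : p c = true := hp z hz a ha c hc h1 hca pz pa
    exact absurd (h3 c (List.mem_filter.2 ⟨hc, pc⟩) ((B_filter p w hw hp s a ha c hc pa pc).1 h4)
      ((B_filter p w hw hp s c hc z hz pc pz).1 h5)) (by omega)

/-- there is a largest element of a bounded nonempty set of naturals -/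
theorem exists_max (P : ℕ → Prop) (n : ℕ) (hP : ∀ x, P x → x ≤ n) (h : ∃ x, P x) :
    ∃ x, P x ∧ ∀ y, P y → y ≤ x := by
  classical
  obtain ⟨x, hx⟩ := h
  have h1 : (((range (n + 1)).filter P)).Nonempty :=
    ⟨x, mem_filter.2 ⟨mem_range.2 (by have := hP x hx; omega), hx⟩⟩
  obtain ⟨y, hy, hmax⟩ := Finset.exists_max_image _ id h1
  refine ⟨y, (mem_filter.1 hy).2, fun z hz => ?_⟩
  exact hmax z (mem_filter.2 ⟨mem_range.2 (by have := hP z hz; omega), hz⟩)

theorem exists_next {s : ℕ} {w : List ℕ} {a z : ℕ} (h : R s w a z) : ∃ b, IsNext s w a b := by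
  obtain ⟨b, h1, h2⟩ := exists_max (fun z => R s w a z) a (fun x hx => hx.2.1.le) ⟨z, h⟩
  exact ⟨b, h1, h2⟩

/-- Going back in time along a greedy chain. -/
theorem back (w : List ℕ) (hw : w.Nodup) (s : ℕ) {y z : ℕ} (hy : y ∈ w) (hz : R (s + 1) w y z) :
    ∃ x ∈ w, IsNext s w x y := by
  classical
  -- the letter next to `y`
  obtain ⟨u, hu, hmin⟩ := Finset.exists_min_image (w.toFinset.filter fun v => R (s + 1) w y v)
    (fun v => (revstackSort^[s + 1] w).idxOf v) ⟨z, by simp [hz, hz.1]⟩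
  rw [mem_filter, List.mem_toFinset] at hu
  obtain ⟨huw, hR⟩ := hu
  have hadj : ∀ c ∈ w, B (s + 1) w y c → B (s + 1) w c u → False := by
    intro c hc h1 h2
    have h3 : c ≤ y := hR.2.2.2 c hc h1 h2
    have h4 : c ≠ y := fun h => B_irrefl (h ▸ h1)
    have h5 : R (s + 1) w y c := by
      refine ⟨hc, by omega, h1, ?_⟩
      intro d hd h6 h7
      exact hR.2.2.2 d hd h6 (B_trans h7 h2)
    have h8 := hmin c (by simp [hc, h5])
    exact absurd h2 (not_lt.2 h8)
  obtain ⟨-, huy, hBu, -⟩ := hR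
  -- the largest letter between `u` and `y` at time `s`
  rw [B_succ s w hw huw hy huy] at hBu
  obtain ⟨c0, hc0, h01, h02, h03⟩ := hBu
  obtain ⟨x, ⟨hxw, hyx, hux, hxy⟩, hxmax⟩ := exists_max
    (fun c => c ∈ w ∧ y < c ∧ B s w u c ∧ B s w c y) (maxLetter w)
    (fun c hc => maxLetter_ge hc.1) ⟨c0, hc0, h01, h02, h03⟩
  have hRx : R s w x y := by
    refine ⟨hy, hyx, hxy, fun c hc h1 h2 => ?_⟩
    by_contra hcx
    push Not at hcx
    exact absurd (hxmax c ⟨hc, by omega, B_trans hux h1, h2⟩) (by omega)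
  refine ⟨x, hxw, hRx, ?_⟩
  obtain ⟨y', hy'R, hy'max⟩ := exists_next hRx
  intro v hv
  refine (hy'max v hv).trans ?_
  by_contra hlt
  push Not at hlt
  obtain ⟨hy'w, hy'x, hxy', hblk⟩ := hy'R
  refine hadj y' hy'w ?_ ?_
  · -- `y` is before `y'` at time `s + 1`
    rw [← B_not hw hy'w (by omega : y' ≠ y), B_succ s w hw hy hy'w hlt]
    rintro ⟨c, hc, h1, h2, h3⟩
    have h4 : c ≤ x := hblk c hc (B_trans hxy h2) h3
    have h5 : c ≠ x := fun h => B_asymm (h ▸ h2) hxy
    have h6 : R s w x c := by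
      refine ⟨hc, by omega, B_trans hxy h2, fun d hd h7 h8 => ?_⟩
      exact hblk d hd h7 (B_trans h8 h3)
    exact absurd (hy'max c h6) (by omega)
  · rw [B_succ s w hw huw hy'w (by omega)]
    exact ⟨x, hxw, hy'x, hux, hxy'⟩

/-- an unsorted word at time `t` has a greedy chain of length `t + 1` -/
theorem chain_of_inv (w : List ℕ) (hw : w.Nodup) (t : ℕ) :
    ∀ (q : ℕ) (y : ℕ), y ∈ w → (∃ z, R t w y z) → Ch w t y q → ∃ m ∈ w, Ch w 0 m (t + q) := by
  induction t with
  | zero =>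
    intro q y hy _ h
    exact ⟨y, hy, by simpa using h⟩
  | succ t ih =>
    intro q y hy ⟨z, hz⟩ h
    obtain ⟨x, hx, hn⟩ := back w hw t hy hz
    obtain ⟨m, hm, hc⟩ := ih (q + 1) x hx ⟨y, hn.1⟩ ⟨y, hn, h⟩
    exact ⟨m, hm, by rwa [show t + 1 + q = t + (q + 1) by omega]⟩

/-- After a step of a greedy chain, the letters of the right part of the block are not any more in
the right part of the new block. -/
theorem disj (w : List ℕ) (hw : w.Nodup) (s : ℕ) {a b y : ℕ} (_ha : a ∈ w) (hn : IsNext s w a b)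
    (hy : R s w a y) : ¬ R (s + 1) w b y := by
  rintro ⟨hyw, hyb, hB, -⟩
  obtain ⟨⟨hbw, hba, hab, hblk⟩, hmax⟩ := hn
  rw [B_succ s w hw hyw hbw hyb] at hB
  obtain ⟨c, hc, h1, h2, h3⟩ := hB
  have h4 : B s w a c := B_trans hy.2.2.1 h2
  have h5 : c ≤ a := hblk c hc h4 h3
  have h6 : c ≠ a := fun h => B_irrefl (h ▸ h4)
  have h7 : R s w a c := ⟨hc, by omega, h4, fun d hd h8 h9 => hblk d hd h8 (B_trans h9 h3)⟩
  exact absurd (hmax c h7) (by omega)

end Pool.Agent.Helper58_Revstack
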