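import Pool.Agent.Helper58_Revstack.Count

/-!
# Stack sort against revstack sort: the counting (helper58, MP_78620a_co)
-/

set_option autoImplicit false

namespace Pool.Agent.Helper58_Revstack

open Finset

/-- a word without repeated letters which is not increasing has an inversion -/
theorem exists_inv {w : List ℕ} (hw : w.Nodup) (h : ¬ w.Pairwise (· < ·)) :
    ∃ a ∈ w, ∃ b ∈ w, b < a ∧ bf w a b := by
  rw [List.pairwise_iff_getElem] at h
  push Not at h
  obtain ⟨i, j, hi, hj, hij, hle⟩ := h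
  have hne : w[i] ≠ w[j] := by
    intro he
    have := (List.Nodup.getElem_inj_iff hw).1 he
    omega
  refine ⟨w[i], List.getElem_mem hi, w[j], List.getElem_mem hj, by omega, ?_⟩
  unfold bf
  rw [List.Nodup.idxOf_getElem hw, List.Nodup.idxOf_getElem hw]
  exact hij

theorem chain_of_unsorted (w : List ℕ) (hw : w.Nodup) (t : ℕ)
    (h : ¬ (revstackSort^[t] w).Pairwise (· < ·)) : ∃ m ∈ w, Ch w 0 m (t + 1) := by
  obtain ⟨a, ha, b, hb, hba, hB⟩ := exists_inv (it_nodup t w hw) h
  rw [it_mem t w hw] at ha hb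
  obtain ⟨y, ⟨hy, hby, hyb⟩, hmax⟩ := exists_max (fun c => c ∈ w ∧ b < c ∧ B t w c b)
    (maxLetter w) (fun c hc => maxLetter_ge hc.1) ⟨a, ha, hba, hB⟩
  have hR : R t w y b := by
    refine ⟨hb, hby, hyb, fun c hc h1 h2 => ?_⟩
    by_contra hcy
    push Not at hcy
    exact absurd (hmax c ⟨hc, by omega, h2⟩) (by omega)
  obtain ⟨x, hx⟩ := exists_next hR
  exact chain_of_inv w hw t 1 y hy ⟨b, hR⟩ ⟨x, hx, trivial⟩

theorem sorted_eq {w : List ℕ} {n : ℕ} (hp : w.Perm (List.range' 1 n))
    (hs : w.Pairwise (· < ·)) : w = List.range' 1 n := by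
  have h1 : w.Pairwise (· ≤ ·) := hs.imp (fun h => le_of_lt h)
  have h2 : (List.range' 1 n).Pairwise (· ≤ ·) :=
    (List.pairwise_lt_range' (s := 1) (n := n)).imp (fun h => le_of_lt h)
  exact List.Perm.eq_of_pairwise' h1 h2 hp

/-- the words of the permutations of `1, …, n` -/
def W (n : ℕ) : Set (List ℕ) := {w | w.Perm (List.range' 1 n)}

theorem W_eq (n : ℕ) : W n = ((List.range' 1 n).permutations.toFinset : Set (List ℕ)) := by
  ext w
  simp [W, List.mem_permutations]

theorem W_finite (n : ℕ) : (W n).Finite := by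
  rw [W_eq]
  exact Finset.finite_toSet _

theorem perm_ncard (l : List ℕ) (hl : l.Nodup) : {w : List ℕ | w.Perm l}.ncard = l.length.factorial := by
  have h : {w : List ℕ | w.Perm l} = (l.permutations.toFinset : Set (List ℕ)) := by
    ext w
    simp [List.mem_permutations]
  rw [h, Set.ncard_coe_finset, List.toFinset_card_of_nodup (List.nodup_permutations l hl),
    List.length_permutations]

theorem W_ncard (n : ℕ) : (W n).ncard = n.factorial := by
  have := perm_ncard (List.range' 1 n) (List.nodup_range' )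
  simpa [W] using this

theorem W_nodup {n : ℕ} {w : List ℕ} (h : w ∈ W n) : w.Nodup :=
  (List.Perm.nodup_iff h).2 List.nodup_range'

theorem W_mem {n : ℕ} {w : List ℕ} (h : w ∈ W n) (x : ℕ) : x ∈ w ↔ 1 ≤ x ∧ x ≤ n := by
  rw [List.Perm.mem_iff h, List.mem_range'_1]
  omega

theorem W_E {n : ℕ} {w : List ℕ} (h : w ∈ W n) : w ∈ E n [] := by
  apply mem_E n [] w (W_nodup h)
  · intro x h1 h2
    exact (W_mem h x).2 ⟨h1, h2⟩
  · intro x hx
    exact ((W_mem h x).1 hx).1
  · rw [List.filter_eq_nil_iff]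
    intro a ha
    have := ((W_mem h a).1 ha).2
    simpa using this

/-- the permutations sorted by `t` passes of `f` -/
def sortable (f : List ℕ → List ℕ) (n t : ℕ) : Set (List ℕ) :=
  {w | w.Perm (List.range' 1 n) ∧ f^[t] w = List.range' 1 n}

/-- the permutations not sorted by `t` passes of `f` -/
def unsorted (f : List ℕ → List ℕ) (n t : ℕ) : Set (List ℕ) :=
  {w | w.Perm (List.range' 1 n) ∧ f^[t] w ≠ List.range' 1 n}

theorem sortable_add (f : List ℕ → List ℕ) (n t : ℕ) :
    (sortable f n t).ncard + (unsorted f n t).ncard = n.factorial := by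
  have h1 : (sortable f n t).Finite := (W_finite n).subset fun w hw => hw.1
  have h2 : (unsorted f n t).Finite := (W_finite n).subset fun w hw => hw.1
  rw [← Set.ncard_union_eq _ h1 h2, ← W_ncard]
  · congr 1
    ext w
    simp only [sortable, unsorted, W, Set.mem_union, Set.mem_ofPred_eq]
    tauto
  · rw [Set.disjoint_left]
    rintro w ⟨_, h⟩ ⟨_, h'⟩
    exact h' h

theorem unsorted_subset (n t : ℕ) : (unsorted revstackSort n t).ncard ≤
    ∑ p ∈ range n, cnt n [] (fun π => Ch π 0 (p + 1) (t + 1)) := by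
  classical
  have h1 : unsorted revstackSort n t ⊆
      ((range n).biUnion fun p => (E n []).filter (fun π => Ch π 0 (p + 1) (t + 1)) :
        Finset (List ℕ)) := by
    intro w hw
    obtain ⟨hp, hne⟩ := hw
    have hW : w ∈ W n := hp
    have hns : ¬ (revstackSort^[t] w).Pairwise (· < ·) := by
      intro hs
      exact hne (sorted_eq ((it_perm t w (W_nodup hW)).trans hp) hs)
    obtain ⟨m, hm, hc⟩ := chain_of_unsorted w (W_nodup hW) t hns
    have hm' := (W_mem hW m).1 hm
    simp only [coe_biUnion, Set.mem_iUnion, mem_coe, mem_filter, mem_range]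
    refine ⟨m - 1, by omega, W_E hW, ?_⟩
    rwa [show m - 1 + 1 = m by omega]
  refine (Set.ncard_le_ncard h1 (Finset.finite_toSet _)).trans ?_
  rw [Set.ncard_coe_finset]
  exact card_biUnion_le

theorem unsorted_real {lam mu β : ℝ} (hl : 1 ≤ lam) (hmu : mu = (1 + lam) / 2)
    (hβ : β * mu = lam - 1) (n t : ℕ) :
    lam ^ (t + 1) * ((unsorted revstackSort n t).ncard : ℝ) ≤
      n * (n.factorial * mu ^ n * (1 + β)) := by
  have hmu1 : 1 ≤ mu := by rw [hmu]; linarith
  have hβ0 : 0 ≤ β := by
    by_contra h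
    push Not at h
    nlinarith
  have h1 : ((unsorted revstackSort n t).ncard : ℝ) ≤
      ∑ p ∈ range n, (cnt n [] (fun π => Ch π 0 (p + 1) (t + 1)) : ℝ) := by
    exact_mod_cast unsorted_subset n t
  have h2 : ∀ p ∈ range n, lam ^ (t + 1) * (cnt n [] (fun π => Ch π 0 (p + 1) (t + 1)) : ℝ) ≤
      n.factorial * mu ^ n * (1 + β) := by
    intro p hp
    rw [mem_range] at hp
    have h3 := start_bound hl hmu hβ p (t + 1) (n - p - 1) [] List.nodup_nil (by simp)
    have h4 : p + 1 + (n - p - 1) = n := by omega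
    rw [h4] at h3
    refine h3.trans ?_
    have h5 : ([] : List ℕ).length + 1 = 1 := rfl
    rw [h5, A_fact]
    have h6 : mu ^ p ≤ mu ^ n := pow_le_pow_right₀ hmu1 hp.le
    gcongr
  calc lam ^ (t + 1) * ((unsorted revstackSort n t).ncard : ℝ)
      ≤ lam ^ (t + 1) * ∑ p ∈ range n, (cnt n [] (fun π => Ch π 0 (p + 1) (t + 1)) : ℝ) := by
        gcongr
    _ = ∑ p ∈ range n, lam ^ (t + 1) * (cnt n [] (fun π => Ch π 0 (p + 1) (t + 1)) : ℝ) := by
        rw [mul_sum]
    _ ≤ (range n).card • (n.factorial * mu ^ n * (1 + β)) := sum_le_card_nsmul _ _ _ h2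
    _ = _ := by rw [card_range, nsmul_eq_mul]

/-- the bound for the number of permutations which `t` passes of revstack sort do not sort -/
theorem unsorted_exp (n t : ℕ) (hn : 1 ≤ n) (ht : n ≤ 2 * t) :
    ((unsorted revstackSort n t).ncard : ℝ) ≤
      3 * n * n.factorial * Real.exp (-((2 * t - n : ℝ) ^ 2 / (2 * n))) := by
  have hn0 : (0 : ℝ) < n := by exact_mod_cast hn
  have htn : (n : ℝ) ≤ 2 * t := by exact_mod_cast ht
  set δ : ℝ := (2 * t - n) / n with hδ
  have hδ0 : 0 ≤ δ := div_nonneg (by linarith) hn0.le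
  set lam : ℝ := Real.exp (2 * δ) with hlam
  have hl : 1 ≤ lam := Real.one_le_exp (by linarith)
  set mu : ℝ := (1 + lam) / 2 with hmu
  have hmu1 : 1 ≤ mu := by rw [hmu]; linarith
  have hmu0 : 0 < mu := by linarith
  have hβ : ((lam - 1) / mu) * mu = lam - 1 := div_mul_cancel₀ _ hmu0.ne'
  have hβ2 : (lam - 1) / mu ≤ 2 := by
    rw [div_le_iff₀ hmu0, hmu]; linarith
  have h1 := unsorted_real hl hmu hβ n t
  have hmuexp : mu ≤ Real.exp (δ + δ ^ 2 / 2) := by
    have h2 := Real.cosh_le_exp_half_sq δ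
    have h3 : mu = Real.exp δ * Real.cosh δ := by
      rw [Real.cosh_eq, hmu, hlam, two_mul, Real.exp_add, Real.exp_neg]
      field_simp
      ring
    rw [h3, Real.exp_add]
    gcongr
  have hmun : mu ^ n ≤ Real.exp (n * (δ + δ ^ 2 / 2)) := by
    calc mu ^ n ≤ (Real.exp (δ + δ ^ 2 / 2)) ^ n := by gcongr
      _ = _ := by rw [← Real.exp_nat_mul]
  have hlt : Real.exp (2 * δ * t) ≤ lam ^ (t + 1) := by
    calc Real.exp (2 * δ * t) = lam ^ t := by rw [hlam, ← Real.exp_nat_mul]; ring_nf
      _ ≤ lam ^ (t + 1) := pow_le_pow_right₀ hl (by omega)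
  have hU0 : (0 : ℝ) ≤ ((unsorted revstackSort n t).ncard : ℝ) := Nat.cast_nonneg _
  have h4 : Real.exp (2 * δ * t) * ((unsorted revstackSort n t).ncard : ℝ) ≤
      3 * n * n.factorial * Real.exp (n * (δ + δ ^ 2 / 2)) := by
    calc Real.exp (2 * δ * t) * ((unsorted revstackSort n t).ncard : ℝ)
        ≤ lam ^ (t + 1) * ((unsorted revstackSort n t).ncard : ℝ) := by gcongr
      _ ≤ n * (n.factorial * mu ^ n * (1 + (lam - 1) / mu)) := h1
      _ ≤ n * (n.factorial * Real.exp (n * (δ + δ ^ 2 / 2)) * 3) := by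
          have : 0 ≤ 1 + (lam - 1) / mu := by
            have : 0 ≤ (lam - 1) / mu := div_nonneg (by linarith) hmu0.le
            linarith
          gcongr
          linarith
      _ = _ := by ring
  have h5 : Real.exp (-((2 * t - n : ℝ) ^ 2 / (2 * n))) =
      Real.exp (n * (δ + δ ^ 2 / 2)) / Real.exp (2 * δ * t) := by
    rw [← Real.exp_sub]
    congr 1
    rw [hδ]
    field_simp
    ring
  rw [h5, ← mul_div_assoc, le_div_iff₀ (Real.exp_pos _)]
  linarith

/-! ### The slow permutations for stack sort -/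

theorem stack_append (u : List ℕ) (m : ℕ) (hu : ∀ x ∈ u, x < m) :
    stackSort (u ++ [m]) = stackSort u ++ [m] := by
  have := stackSort_split (L := u) (R := []) (m := m) hu (by simp)
  rw [stackSort_nil, List.append_nil] at this
  exact this

theorem stack_iter_append (s : ℕ) : ∀ (u : List ℕ) (m : ℕ), u.Nodup → (∀ x ∈ u, x < m) →
    stackSort^[s] (u ++ [m]) = stackSort^[s] u ++ [m] := by
  induction s with
  | zero => intro u m _ _; rfl
  | succ s ih =>
    intro u m hn hu
    rw [Function.iterate_succ_apply, Function.iterate_succ_apply, stack_append u m hu]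
    have hp := stackSort_perm u hn
    exact ih (stackSort u) m (hp.nodup_iff.2 hn) fun x hx => hu x (hp.mem_iff.1 hx)

theorem stack_slow (s : ℕ) : ∀ (k : ℕ) (Z : List ℕ), s ≤ k → Z.Perm (List.range' 2 k) →
    stackSort^[s] (Z ++ [k + 2, 1]) ≠ List.range' 1 (k + 2) := by
  induction s with
  | zero =>
    intro k Z _ _ h
    rw [Function.iterate_zero, id_eq, List.range'_1_concat] at h
    have h1 : Z ++ [k + 2, 1] = (Z ++ [k + 2]) ++ [1] := by simp
    rw [h1] at h
    have h2 := List.append_inj_right' h rfl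
    simp at h2
  | succ s ih =>
    intro k Z hk hZ
    obtain ⟨k, rfl⟩ : ∃ k', k = k' + 1 := ⟨k - 1, by omega⟩
    have hZn : Z.Nodup := hZ.nodup_iff.2 List.nodup_range'
    have hZm : ∀ x, x ∈ Z ↔ 2 ≤ x ∧ x ≤ k + 2 := by
      intro x
      rw [hZ.mem_iff, List.mem_range'_1]
      omega
    have h1 : Z ++ [k + 1 + 2, 1] = Z ++ (k + 3) :: [1] := by simp
    have h2 : stackSort (Z ++ [k + 1 + 2, 1]) = (stackSort Z ++ [1]) ++ [k + 3] := by
      rw [h1, stackSort_split (fun x hx => by have := (hZm x).1 hx; omega)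
        (fun x hx => by simp at hx; omega)]
      have h3 : stackSort [1] = [1] := by
        have := stack_append [] 1 (by simp)
        simpa [stackSort_nil] using this
      rw [h3]
    rw [Function.iterate_succ_apply, h2]
    -- the last letter of `stackSort Z`
    obtain ⟨L, R, hLR⟩ := List.append_of_mem ((hZm (k + 2)).2 (by omega))
    have hn := hZn
    rw [hLR, List.nodup_append, List.nodup_cons] at hn
    obtain ⟨hL, ⟨hmR, hR⟩, hd⟩ := hn
    have hL' : ∀ x ∈ L, x < k + 2 := by
      intro x hx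
      have h3 : x ≤ k + 2 := ((hZm x).1 (by rw [hLR]; simp [hx])).2
      have h4 : x ≠ k + 2 := hd x hx (k + 2) (by simp)
      omega
    have hR' : ∀ x ∈ R, x < k + 2 := by
      intro x hx
      have h3 : x ≤ k + 2 := ((hZm x).1 (by rw [hLR]; simp [hx])).2
      have h4 : x ≠ k + 2 := fun h => hmR (h ▸ hx)
      omega
    have hSZ : stackSort Z = (stackSort L ++ stackSort R) ++ [k + 2] := by
      rw [hLR, stackSort_split hL' hR']
    have hZ' : (stackSort L ++ stackSort R).Perm (List.range' 2 k) := by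
      have h5 : ((stackSort L ++ stackSort R) ++ [k + 2]).Perm (List.range' 2 k ++ [k + 2]) := by
        rw [← hSZ]
        have h6 : List.range' 2 k ++ [k + 2] = List.range' 2 (k + 1) := by
          rw [List.range'_1_concat, Nat.add_comm 2 k]
        rw [h6]
        exact (stackSort_perm Z hZn).trans hZ
      exact (List.perm_append_right_iff _).1 h5
    have hmem : ∀ x ∈ stackSort Z ++ [1], x < k + 3 := by
      intro x hx
      rcases List.mem_append.1 hx with hx | hx
      · have := (hZm x).1 ((stackSort_perm Z hZn).mem_iff.1 hx)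
        omega
      · simp at hx; omega
    have hnd : (stackSort Z ++ [1]).Nodup := by
      rw [List.nodup_append]
      refine ⟨(stackSort_perm Z hZn).nodup_iff.2 hZn, List.nodup_singleton _, ?_⟩
      intro a ha b hb
      have := (hZm a).1 ((stackSort_perm Z hZn).mem_iff.1 ha)
      simp at hb
      omega
    rw [stack_iter_append s _ _ hnd hmem]
    intro h
    rw [List.range'_1_concat] at h
    have h7 := List.append_inj_left' h rfl
    have h8 : stackSort Z ++ [1] = (stackSort L ++ stackSort R) ++ [k + 2, 1] := by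
      rw [hSZ]; simp
    rw [h8] at h7
    exact ih k _ (by omega) hZ' h7

/-- the number of permutations which `t` passes of stack sort do not sort -/
theorem unsorted_stack (n t : ℕ) (ht : t + 2 ≤ n) :
    (n - 2).factorial ≤ (unsorted stackSort n t).ncard := by
  obtain ⟨k, rfl⟩ : ∃ k, n = k + 2 := ⟨n - 2, by omega⟩
  have h1 := perm_ncard (List.range' 2 k) List.nodup_range'
  rw [List.length_range'] at h1
  rw [Nat.add_sub_cancel, ← h1]
  refine Set.ncard_le_ncard_of_injOn (fun Z => Z ++ [k + 2, 1]) ?_ ?_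
    ((W_finite (k + 2)).subset fun w hw => hw.1)
  · intro Z hZ
    refine ⟨?_, stack_slow t k Z (by omega) hZ⟩
    have h2 : List.range' 1 (k + 2) = [1] ++ List.range' 2 k ++ [k + 2] := by
      rw [List.range'_1_concat, List.range'_succ, Nat.add_comm 1 (k + 1)]
      simp
    rw [h2]
    have h3 : Z ++ [k + 2, 1] = (Z ++ [k + 2]) ++ [1] := by simp
    have h4 : [1] ++ List.range' 2 k ++ [k + 2] = [1] ++ (List.range' 2 k ++ [k + 2]) := by simp
    rw [h3, h4]
    exact List.perm_append_comm.trans (List.Perm.append_left [1] (List.Perm.append_right _ hZ))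
  · intro Z _ Z' _ h
    exact List.append_cancel_right h

/-- strict inequality above `n / 2` -/
theorem strict (n t : ℕ) (hn : 1 ≤ n) (h1 : n ≤ 2 * t) (h2 : t + 2 ≤ n)
    (h3 : 2 * n * Real.log (3 * n ^ 3) ≤ (2 * t - n : ℝ) ^ 2) :
    (sortable stackSort n t).ncard < (sortable revstackSort n t).ncard := by
  have hS := sortable_add stackSort n t
  have hT := sortable_add revstackSort n t
  suffices h : (unsorted revstackSort n t).ncard < (unsorted stackSort n t).ncard by omega
  refine lt_of_lt_of_le ?_ (unsorted_stack n t h2)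
  have hn0 : (0 : ℝ) < n := by exact_mod_cast hn
  have hb := unsorted_exp n t hn h1
  have h4 : Real.log (3 * n ^ 3) ≤ (2 * t - n : ℝ) ^ 2 / (2 * n) := by
    rw [le_div_iff₀ (by positivity)]
    linarith
  have h5 : Real.exp (-((2 * t - n : ℝ) ^ 2 / (2 * n))) ≤ 1 / (3 * n ^ 3) := by
    calc Real.exp (-((2 * t - n : ℝ) ^ 2 / (2 * n))) ≤ Real.exp (-Real.log (3 * n ^ 3)) := by
          apply Real.exp_le_exp.2; linarith
      _ = 1 / (3 * n ^ 3) := by
          rw [Real.exp_neg, Real.exp_log (by positivity), one_div]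
  have h6 : ((unsorted revstackSort n t).ncard : ℝ) ≤ 3 * n * n.factorial * (1 / (3 * n ^ 3)) := by
    refine hb.trans ?_
    gcongr
  obtain ⟨k, rfl⟩ : ∃ k, n = k + 2 := ⟨n - 2, by omega⟩
  have h7 : ((k + 2).factorial : ℝ) = (k + 2) * (k + 1) * k.factorial := by
    rw [Nat.factorial_succ, Nat.factorial_succ]; push_cast; ring
  have h8 : 3 * ((k + 2 : ℕ) : ℝ) * ((k + 2).factorial : ℝ) * (1 / (3 * ((k + 2 : ℕ) : ℝ) ^ 3)) <
      (k.factorial : ℝ) := by
    rw [h7]
    push_cast
    have hk : (0 : ℝ) < k.factorial := by exact_mod_cast Nat.factorial_pos k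
    have h9 : 3 * ((k : ℝ) + 2) * (((k : ℝ) + 2) * (k + 1) * k.factorial) *
        (1 / (3 * ((k : ℝ) + 2) ^ 3)) = (k + 1) / (k + 2) * k.factorial := by
      field_simp
    rw [h9]
    have h10 : ((k : ℝ) + 1) / (k + 2) < 1 := by
      rw [div_lt_one (by positivity)]; linarith
    calc ((k : ℝ) + 1) / (k + 2) * k.factorial < 1 * k.factorial := by gcongr
      _ = _ := one_mul _
  have h11 : ((unsorted revstackSort (k + 2) t).ncard : ℝ) < (k.factorial : ℝ) :=
    lt_of_le_of_lt h6 h8
  rw [Nat.add_sub_cancel]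
  exact_mod_cast h11

end Pool.Agent.Helper58_Revstack
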