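import Pool.Agent.Helper58_Revstack.Dyn

/-!
# Insertion of small letters (helper58, MP_78620a_co)
-/

set_option autoImplicit false

namespace Pool.Agent.Helper58_Revstack

open Finset

/-- insert `x` in the gap `i` of the word `w` -/
def ins (w : List ℕ) (i x : ℕ) : List ℕ := w.take i ++ x :: w.drop i

theorem ins_nil (i x : ℕ) : ins [] i x = [x] := by simp [ins]

theorem ins_zero (w : List ℕ) (x : ℕ) : ins w 0 x = x :: w := by simp [ins]

theorem ins_cons_succ (a : ℕ) (w : List ℕ) (i x : ℕ) : ins (a :: w) (i + 1) x = a :: ins w i x := by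
  simp [ins]

theorem ins_perm (w : List ℕ) (i x : ℕ) : (ins w i x).Perm (x :: w) := by
  unfold ins
  refine List.perm_middle.trans ?_
  rw [List.take_append_drop]

theorem mem_ins (w : List ℕ) (i x y : ℕ) : y ∈ ins w i x ↔ y = x ∨ y ∈ w := by
  rw [(ins_perm w i x).mem_iff, List.mem_cons]

theorem length_ins (w : List ℕ) (i x : ℕ) : (ins w i x).length = w.length + 1 := by
  rw [(ins_perm w i x).length_eq, List.length_cons]

theorem nodup_ins {w : List ℕ} (hw : w.Nodup) (i : ℕ) {x : ℕ} (hx : x ∉ w) : (ins w i x).Nodup := by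
  rw [(ins_perm w i x).nodup_iff, List.nodup_cons]
  exact ⟨hx, hw⟩

/-- the predicate `≠ x` -/
def ne (x : ℕ) : ℕ → Bool := fun y => decide (y ≠ x)

theorem ne_iff (x y : ℕ) : ne x y = true ↔ y ≠ x := by simp [ne]

theorem filter_ne_self {w : List ℕ} {x : ℕ} (hx : x ∉ w) : w.filter (ne x) = w := by
  rw [List.filter_eq_self]
  intro a ha
  rw [ne_iff]
  exact fun h => hx (h ▸ ha)

theorem filter_ne_ins {w : List ℕ} {x : ℕ} (hx : x ∉ w) (i : ℕ) : (ins w i x).filter (ne x) = w := by
  unfold ins
  rw [List.filter_append, List.filter_cons_of_neg (by simp [ne]), ← List.filter_append,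
    List.take_append_drop, filter_ne_self hx]

/-- the gap of the word which contains the gap `j` of the word with a letter inserted in gap `i` -/
def phi (i j : ℕ) : ℕ := if j ≤ i then j else j - 1

theorem filter_ins_ins {w : List ℕ} {k y : ℕ} (hk : k ∉ w) (hy : y ≠ k) :
    ∀ i j : ℕ, (ins (ins w i k) j y).filter (ne k) = ins w (phi i j) y := by
  have hyk : ne k y = true := (ne_iff k y).2 hy
  have hkk : ¬ ne k k = true := by simp [ne]
  induction w with
  | nil =>
    intro i j
    rw [ins_nil, ins_nil]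
    cases j with
    | zero => rw [ins_zero, List.filter_cons_of_pos hyk, List.filter_cons_of_neg hkk]; rfl
    | succ j =>
      rw [ins_cons_succ, ins_nil, List.filter_cons_of_neg hkk, List.filter_cons_of_pos hyk]; rfl
  | cons a l ih =>
    have ha : ne k a = true := (ne_iff k a).2 (fun h => hk (by simp [h]))
    have hl : k ∉ l := fun h => hk (by simp [h])
    intro i j
    cases i with
    | zero =>
      rw [ins_zero]
      cases j with
      | zero =>
        rw [ins_zero, List.filter_cons_of_pos hyk, List.filter_cons_of_neg hkk, filter_ne_self hk]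
        rfl
      | succ j =>
        rw [ins_cons_succ, List.filter_cons_of_neg hkk, filter_ne_self]
        · rfl
        · rw [mem_ins]
          rintro (h | h)
          · exact hy h.symm
          · exact hk h
    | succ i =>
      rw [ins_cons_succ]
      cases j with
      | zero =>
        rw [ins_zero, List.filter_cons_of_pos hyk, List.filter_cons_of_pos ha, filter_ne_ins hl]
        simp [phi, ins_zero]
      | succ j =>
        rw [ins_cons_succ, List.filter_cons_of_pos ha, ih hl i j]
        have h1 : phi (i + 1) (j + 1) = phi i j + 1 := by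
          unfold phi
          split_ifs <;> omega
        rw [h1, ins_cons_succ]

theorem phi_le {i j n : ℕ} (hi : i ≤ n) (hj : j ≤ n + 1) : phi i j ≤ n := by
  unfold phi
  split_ifs <;> omega

theorem phi_inj {i j j' : ℕ} (h : phi i j = phi i j') (hi : phi i j ≠ i) : j = j' := by
  unfold phi at h hi
  split_ifs at h hi <;> omega

/-- the predicate `≠ x` is closed when `x` is smaller than the other letters, or than all the other
letters but one -/
theorem cl_ne {w : List ℕ} {x y : ℕ} (h : ∀ z ∈ w, z = y ∨ z = x ∨ x < z) : Cl (ne x) w := by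
  intro a ha b hb c hc hab hbc h1 h2
  rw [ne_iff] at *
  have h3 := h a ha
  have h4 := h b hb
  have h5 := h c hc
  omega

theorem cl_lt (k : ℕ) (w : List ℕ) : Cl (fun z => decide (k < z)) w := by
  intro a ha b hb c hc hab hbc h1 h2
  simp only [decide_eq_true_eq] at *
  omega

/-- the order of old letters does not change when a smallest letter is inserted -/
theorem B_ins {w : List ℕ} (hw : w.Nodup) {x : ℕ} (hx : ∀ z ∈ w, x < z) (i s : ℕ) {a b : ℕ}
    (ha : a ∈ w) (hb : b ∈ w) : B s (ins w i x) a b ↔ B s w a b := by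
  have hxw : x ∉ w := fun h => lt_irrefl _ (hx x h)
  have h1 := B_filter (ne x) (ins w i x) (nodup_ins hw i hxw) (cl_ne (y := x) (by
    intro z hz
    rw [mem_ins] at hz
    rcases hz with h | h
    · exact Or.inl h
    · exact Or.inr (Or.inr (hx z h)))) s a ((mem_ins _ _ _ _).2 (Or.inr ha)) b
      ((mem_ins _ _ _ _).2 (Or.inr hb)) ((ne_iff _ _).2 (hx a ha).ne') ((ne_iff _ _).2 (hx b hb).ne')
  rw [filter_ne_ins hxw] at h1
  exact h1

theorem R_ins {w : List ℕ} (hw : w.Nodup) {x : ℕ} (hx : ∀ z ∈ w, x < z) (i s : ℕ) {a b : ℕ}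
    (ha : a ∈ w) (hb : b ≠ x) : R s (ins w i x) a b ↔ R s w a b := by
  have hxw : x ∉ w := fun h => lt_irrefl _ (hx x h)
  have h1 := R_filter (ne x) (ins w i x) (nodup_ins hw i hxw) (cl_ne (y := x) (by
    intro z hz
    rw [mem_ins] at hz
    rcases hz with h | h
    · exact Or.inl h
    · exact Or.inr (Or.inr (hx z h)))) s (a := a) (z := b) ((mem_ins _ _ _ _).2 (Or.inr ha))
      ((ne_iff _ _).2 (hx a ha).ne') ((ne_iff _ _).2 hb)
  rw [filter_ne_ins hxw] at h1
  exact h1

/-- the position of the inserted smallest letter does not depend on the letter -/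
theorem B_relabel {w : List ℕ} (hw : w.Nodup) {x y : ℕ} (hx : ∀ z ∈ w, x < z)
    (hy : ∀ z ∈ w, y < z) (i s : ℕ) : ∀ b ∈ w, (B s (ins w i x) x b ↔ B s (ins w i y) y b) := by
  have hxw : x ∉ w := fun h => lt_irrefl _ (hx x h)
  have hyw : y ∉ w := fun h => lt_irrefl _ (hy y h)
  induction s with
  | zero =>
    intro b hb
    have key : ∀ x : ℕ, x ∉ w → (B 0 (ins w i x) x b ↔ b ∉ w.take i) := by
      intro x hxw
      change bf (ins w i x) x b ↔ _
      unfold ins
      rw [bf_append, bf_cons]
      have h1 : x ∉ w.take i := fun h => hxw (List.mem_of_mem_take h)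
      have h2 : b ≠ x := fun h => hxw (h ▸ hb)
      simp [h1, h2]
    rw [key x hxw, key y hyw]
  | succ s ih =>
    intro b hb
    have nx := nodup_ins hw i hxw
    have ny := nodup_ins hw i hyw
    have mx : ∀ z ∈ w, z ∈ ins w i x := fun z hz => (mem_ins _ _ _ _).2 (Or.inr hz)
    have my : ∀ z ∈ w, z ∈ ins w i y := fun z hz => (mem_ins _ _ _ _).2 (Or.inr hz)
    have mxx : x ∈ ins w i x := (mem_ins _ _ _ _).2 (Or.inl rfl)
    have myy : y ∈ ins w i y := (mem_ins _ _ _ _).2 (Or.inl rfl)
    rw [← B_not nx (mx b hb) (hx b hb).ne', ← B_not ny (my b hb) (hy b hb).ne',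
      B_succ s _ nx mxx (mx b hb) (hx b hb), B_succ s _ ny myy (my b hb) (hy b hb)]
    refine not_congr ⟨?_, ?_⟩
    · rintro ⟨c, hc, h1, h2, h3⟩
      rw [mem_ins] at hc
      have hcw : c ∈ w := by
        rcases hc with rfl | hc
        · exact absurd h1 (not_lt.2 (hx b hb).le)
        · exact hc
      exact ⟨c, my c hcw, h1, (ih c hcw).1 h2,
        (B_ins hw hy i s hcw hb).2 ((B_ins hw hx i s hcw hb).1 h3)⟩
    · rintro ⟨c, hc, h1, h2, h3⟩
      rw [mem_ins] at hc
      have hcw : c ∈ w := by
        rcases hc with rfl | hc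
        · exact absurd h1 (not_lt.2 (hy b hb).le)
        · exact hc
      exact ⟨c, mx c hcw, h1, (ih c hcw).2 h2,
        (B_ins hw hx i s hcw hb).2 ((B_ins hw hy i s hcw hb).1 h3)⟩

theorem R_relabel {w : List ℕ} (hw : w.Nodup) {x y : ℕ} (hx : ∀ z ∈ w, x < z)
    (hy : ∀ z ∈ w, y < z) (i s : ℕ) {a : ℕ} (ha : a ∈ w) (h : R s (ins w i x) a x) :
    R s (ins w i y) a y := by
  have hxw : x ∉ w := fun h => lt_irrefl _ (hx x h)
  have hyw : y ∉ w := fun h => lt_irrefl _ (hy y h)
  have nx := nodup_ins hw i hxw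
  have ny := nodup_ins hw i hyw
  have mx : ∀ z ∈ w, z ∈ ins w i x := fun z hz => (mem_ins _ _ _ _).2 (Or.inr hz)
  have my : ∀ z ∈ w, z ∈ ins w i y := fun z hz => (mem_ins _ _ _ _).2 (Or.inr hz)
  have rel : ∀ c ∈ w, (B s (ins w i x) c x ↔ B s (ins w i y) c y) := by
    intro c hc
    rw [← B_not nx ((mem_ins _ _ _ _).2 (Or.inl rfl)) (hx c hc).ne,
      ← B_not ny ((mem_ins _ _ _ _).2 (Or.inl rfl)) (hy c hc).ne, B_relabel hw hx hy i s c hc]
  obtain ⟨-, -, h2, h3⟩ := h
  refine ⟨(mem_ins _ _ _ _).2 (Or.inl rfl), hy a ha, (rel a ha).1 h2, ?_⟩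
  intro c hc h4 h5
  rw [mem_ins] at hc
  rcases hc with rfl | hc
  · exact (hy a ha).le
  · exact h3 c (mx c hc) ((B_ins hw hx i s ha hc).2 ((B_ins hw hy i s ha hc).1 h4)) ((rel c hc).2 h5)

open Classical in
/-- the gaps in the right part of the block of `a` at time `s` -/
noncomputable def good (w : List ℕ) (s a : ℕ) : Finset ℕ :=
  (range (w.length + 1)).filter fun i => R s (ins w i 0) a 0

theorem mem_good (w : List ℕ) (s a i : ℕ) : i ∈ good w s a ↔ i ≤ w.length ∧ R s (ins w i 0) a 0 := by
  classical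
  unfold good
  rw [mem_filter, mem_range, Nat.lt_succ_iff]

/-- transfer of `R` from two inserted letters to one -/
theorem R_two {w : List ℕ} (hw : w.Nodup) {k : ℕ} (hk0 : 0 < k) (hk : ∀ z ∈ w, k < z) (i j s : ℕ)
    {a : ℕ} (ha : a ∈ w) : R s (ins (ins w i k) j 0) a 0 ↔ R s (ins w (phi i j) 0) a 0 := by
  have hkw : k ∉ w := fun h => lt_irrefl _ (hk k h)
  have h0 : 0 ∉ ins w i k := by
    rw [mem_ins]
    rintro (h | h)
    · omega
    · exact absurd (hk 0 h) (by omega)
  have h1 := R_filter (ne k) (ins (ins w i k) j 0) (nodup_ins (nodup_ins hw i hkw) j h0)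
    (cl_ne (y := 0) (by
      intro z hz
      rw [mem_ins, mem_ins] at hz
      rcases hz with h | h | h
      · exact Or.inl h
      · exact Or.inr (Or.inl h)
      · exact Or.inr (Or.inr (hk z h)))) s (a := a) (z := 0)
      ((mem_ins _ _ _ _).2 (Or.inr ((mem_ins _ _ _ _).2 (Or.inr ha))))
      ((ne_iff _ _).2 (hk a ha).ne') ((ne_iff _ _).2 hk0.ne)
  rw [filter_ins_ins hkw hk0.ne] at h1
  exact h1

/-- the number of good gaps after an insertion outside of the good gaps -/
theorem good_skip {w : List ℕ} (hw : w.Nodup) {k : ℕ} (hk0 : 0 < k) (hk : ∀ z ∈ w, k < z) {i s a : ℕ}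
    (hi : i ≤ w.length) (ha : a ∈ w) (hig : i ∉ good w s a) :
    (good (ins w i k) s a).card ≤ (good w s a).card := by
  refine card_le_card_of_injOn (phi i) ?_ ?_
  · intro j hj
    rw [mem_coe, mem_good, length_ins] at hj
    rw [mem_coe, mem_good]
    exact ⟨phi_le hi hj.1, (R_two hw hk0 hk i j s ha).1 hj.2⟩
  · intro j hj j' _ h
    refine phi_inj h fun h' => hig ?_
    rw [mem_coe, mem_good, length_ins] at hj
    rw [mem_good]
    refine ⟨hi, ?_⟩
    have := (R_two hw hk0 hk i j s ha).1 hj.2
    rwa [h'] at this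

/-- the number of good gaps after an insertion in a good gap -/
theorem good_hit {w : List ℕ} (hw : w.Nodup) {k : ℕ} (hk0 : 0 < k) (hk : ∀ z ∈ w, k < z) {i s a : ℕ}
    (hi : i ≤ w.length) (ha : a ∈ w) (hno : ∀ z, ¬ R s w a z) (hig : i ∈ good w s a) :
    (good (ins w i k) (s + 1) k).card + (good w s a).card ≤ w.length + 1 := by
  classical
  have hkw : k ∉ w := fun h => lt_irrefl _ (hk k h)
  have hw0 : ∀ z ∈ w, 0 < z := fun z hz => by have := hk z hz; omega
  have h1 : (good (ins w i k) (s + 1) k).card ≤ (range (w.length + 1) \ good w s a).card := by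
    have key : ∀ j ∈ good (ins w i k) (s + 1) k, phi i j ∉ good w s a := by
      intro j hj hjg
      rw [mem_good, length_ins] at hj
      rw [mem_good] at hjg hig
      have h0 : 0 ∉ ins w i k := by
        rw [mem_ins]
        rintro (h | h)
        · omega
        · exact absurd (hk 0 h) (by omega)
      have hpos : ∀ z ∈ ins w i k, 0 < z := by
        intro z hz
        rw [mem_ins] at hz
        rcases hz with rfl | hz
        · exact hk0
        · exact hw0 z hz
      have nk := nodup_ins hw i hkw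
      have ha' : a ∈ ins w i k := (mem_ins _ _ _ _).2 (Or.inr ha)
      have hRk : R s (ins (ins w i k) j 0) a k :=
        (R_ins nk hpos j s ha' hk0.ne').2 (R_relabel hw hw0 hk i s ha hig.2)
      have hnext : IsNext s (ins (ins w i k) j 0) a k := by
        refine ⟨hRk, fun z hz => ?_⟩
        by_contra hzk
        push Not at hzk
        have h3 := (R_ins nk hpos j s ha' (by omega : z ≠ 0)).1 hz
        have h4 := (R_ins hw hk i s ha (by omega : z ≠ k)).1 h3
        exact hno z h4
      exact disj _ (nodup_ins nk j h0) s ((mem_ins _ _ _ _).2 (Or.inr ha')) hnext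
        ((R_two hw hk0 hk i j s ha).2 hjg.2) hj.2
    refine card_le_card_of_injOn (phi i) ?_ ?_
    · intro j hj
      have h2 := key j hj
      rw [mem_coe, mem_good, length_ins] at hj
      rw [mem_coe, mem_sdiff, mem_range]
      exact ⟨Nat.lt_succ_iff.2 (phi_le hi hj.1), h2⟩
    · intro j hj j' _ h
      refine phi_inj h fun h' => ?_
      have h5 := key j hj
      rw [h'] at h5
      exact h5 hig
  have h2 : good w s a ⊆ range (w.length + 1) := filter_subset _ _
  rw [card_sdiff_of_subset h2, card_range] at h1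
  have h3 := card_le_card h2
  rw [card_range] at h3
  omega

theorem good_card_le (w : List ℕ) (s a : ℕ) : (good w s a).card ≤ w.length + 1 := by
  classical
  have h3 := card_le_card (filter_subset (fun i => R s (ins w i 0) a 0) (range (w.length + 1)))
  rw [card_range] at h3
  exact h3

end Pool.Agent.Helper58_Revstack
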